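import Mathlib
import Pool.Agent.Lib.MP_7f190d_al.H1.FinExp

/-!
# Structure of torsion-free groups with a central copy of `ℤ_p` and exponent `p ^ k` modulo it
-/

set_option autoImplicit false

namespace Pool.Agent.Lib.MP_7f190d_al.H49

open Topology Filter

section padic

variable {p : ℕ} [Fact p.Prime]

/-- multiplication by `p ^ k` is an open embedding of `ℤ_p` -/
lemma isOpenEmbedding_mul (k : ℕ) : IsOpenEmbedding fun x : ℤ_[p] => (p : ℤ_[p]) ^ k * x := by
  have hp0 : (p : ℤ_[p]) ^ k ≠ 0 :=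
    pow_ne_zero _ (by exact_mod_cast (Fact.out : p.Prime).ne_zero)
  have hc : Continuous fun x : ℤ_[p] => (p : ℤ_[p]) ^ k * x := continuous_const.mul continuous_id
  have hi : Function.Injective fun x : ℤ_[p] => (p : ℤ_[p]) ^ k * x :=
    fun x y h => mul_left_cancel₀ hp0 h
  refine ⟨(hc.isClosedEmbedding hi).isEmbedding, ?_⟩
  have h1 : Set.range (fun x : ℤ_[p] => (p : ℤ_[p]) ^ k * x) = Metric.closedBall 0 ((p : ℝ) ^ (-k : ℤ)) := by
    ext x
    rw [mem_closedBall_zero_iff, PadicInt.norm_le_pow_iff_mem_span_pow, Ideal.mem_span_singleton]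
    constructor
    · rintro ⟨y, rfl⟩
      exact ⟨y, rfl⟩
    · rintro ⟨y, rfl⟩
      exact ⟨y, rfl⟩
  rw [h1]
  apply IsUltrametricDist.isOpen_closedBall
  have hp1 : (0 : ℝ) < p := by
    have := (Fact.out : p.Prime).pos
    exact_mod_cast this
  exact (zpow_pos hp1 _).ne'

/-- a homomorphism from `ℤ_p` is continuous if it is so on multiples of `p ^ k` -/
lemma continuous_of_mul {Z : Type*} [Group Z] [TopologicalSpace Z] [IsTopologicalGroup Z]
    (Θ : Multiplicative ℤ_[p] →* Z) (k : ℕ)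
    (h : Continuous fun s : ℤ_[p] => Θ (Multiplicative.ofAdd ((p : ℤ_[p]) ^ k * s))) :
    Continuous Θ := by
  apply continuous_of_continuousAt_one
  have h1 : ContinuousAt (fun x : ℤ_[p] => Θ (Multiplicative.ofAdd x)) 0 := by
    have h2 := (isOpenEmbedding_mul (p := p) k).map_nhds_eq 0
    rw [mul_zero] at h2
    have h3 := h.tendsto 0
    unfold ContinuousAt
    rw [← h2, Filter.tendsto_map'_iff]
    simpa [Function.comp_def] using h3
  have h4 : ContinuousAt (fun x : Multiplicative ℤ_[p] => Multiplicative.toAdd x) 1 :=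
    continuous_toAdd.continuousAt
  exact ContinuousAt.comp (g := fun x : ℤ_[p] => Θ (Multiplicative.ofAdd x)) h1 h4

/-- A torsion-free topological group `Z` with a continuous injective homomorphism from `ℤ_p` such
that all `p ^ k`-th powers lie in the image, is topologically isomorphic to `ℤ_p`, if it is
commutative. -/
lemma nonempty_equiv {Z : Type*} [Group Z] [TopologicalSpace Z] [IsTopologicalGroup Z]
    [T2Space Z] (hcomm : ∀ a b : Z, a * b = b * a) (htf : ∀ g : Z, IsOfFinOrder g → g = 1) (φ : Multiplicative ℤ_[p] →* Z)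
    (hφc : Continuous φ) (hφi : Function.Injective φ) (k : ℕ)
    (hexp : ∀ g : Z, g ^ (p ^ k) ∈ φ.range) : Nonempty (Z ≃ₜ* Multiplicative ℤ_[p]) := by
  classical
  have hpk : p ^ k ≠ 0 := pow_ne_zero _ (Fact.out : p.Prime).ne_zero
  choose f hf using hexp
  -- `ψ z = x` if `φ x = z ^ (p ^ k)`
  let ψ : Z → ℤ_[p] := fun z => Multiplicative.toAdd (f z)
  have hψ : ∀ z, φ (Multiplicative.ofAdd (ψ z)) = z ^ (p ^ k) := fun z => hf z
  have hφi' : ∀ x y : ℤ_[p], φ (Multiplicative.ofAdd x) = φ (Multiplicative.ofAdd y) → x = y :=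
    fun x y h => Multiplicative.ofAdd.injective (hφi h)
  have hψmul : ∀ z w, ψ (z * w) = ψ z + ψ w := by
    intro z w
    apply hφi'
    rw [hψ, ofAdd_add, map_mul, hψ, hψ, (show Commute z w from hcomm z w).mul_pow]
  have hψone : ψ 1 = 0 := by
    have := hψmul 1 1
    rw [mul_one] at this
    exact left_eq_add.mp this
  have hψpow : ∀ (z : Z) (m : ℕ), ψ (z ^ m) = m * ψ z := by
    intro z m
    induction m with
    | zero => simp [hψone]
    | succ m ih =>
      rw [pow_succ, hψmul, ih]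
      push_cast
      ring
  have hψφ : ∀ x : ℤ_[p], ψ (φ (Multiplicative.ofAdd x)) = (p : ℤ_[p]) ^ k * x := by
    intro x
    apply hφi'
    rw [hψ, ← map_pow, ← ofAdd_nsmul, nsmul_eq_mul]
    push_cast
    rfl
  have hψi : ∀ z, ψ z = 0 → z = 1 := by
    intro z hz
    apply htf
    rw [isOfFinOrder_iff_pow_eq_one]
    refine ⟨p ^ k, Nat.pos_of_ne_zero hpk, ?_⟩
    rw [← hψ, hz]
    simp
  have hψinj : Function.Injective ψ := by
    intro z w hzw
    have h1 : ψ (z * w⁻¹) + ψ w = ψ w := by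
      rw [← hψmul, inv_mul_cancel_right, hzw]
    have h2 := hψi _ (add_eq_right.mp h1)
    exact mul_inv_eq_one.mp h2
  -- an element of minimal valuation
  have hne : ∃ m : ℕ, ∃ z, ψ z ≠ 0 ∧ (ψ z).valuation = m := by
    have h1 : ψ (φ (Multiplicative.ofAdd 1)) ≠ 0 := by
      rw [hψφ, mul_one]
      exact pow_ne_zero _ (by exact_mod_cast (Fact.out : p.Prime).ne_zero)
    exact ⟨_, _, h1, rfl⟩
  obtain ⟨z₀, hz₀, hv₀⟩ := Nat.find_spec hne
  set w : ℤ_[p] := ψ z₀ with hw
  have hdiv : ∀ z, ∃ t : ℤ_[p], ψ z = t * w := by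
    intro z
    by_cases hz : ψ z = 0
    · exact ⟨0, by rw [hz, zero_mul]⟩
    have h1 : w.valuation ≤ (ψ z).valuation := by
      rw [hv₀]
      exact Nat.find_min' hne ⟨z, hz, rfl⟩
    have hzu := PadicInt.unitCoeff_spec hz
    have hwu := PadicInt.unitCoeff_spec hz₀
    obtain ⟨j, hj⟩ := Nat.exists_eq_add_of_le h1
    refine ⟨((PadicInt.unitCoeff hz : ℤ_[p]ˣ) : ℤ_[p]) * (((PadicInt.unitCoeff hz₀)⁻¹ : ℤ_[p]ˣ) : ℤ_[p]) *
      (p : ℤ_[p]) ^ j, ?_⟩
    have hu : (((PadicInt.unitCoeff hz₀)⁻¹ : ℤ_[p]ˣ) : ℤ_[p]) *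
      ((PadicInt.unitCoeff hz₀ : ℤ_[p]ˣ) : ℤ_[p]) = 1 := Units.inv_mul _
    calc ψ z = ((PadicInt.unitCoeff hz : ℤ_[p]ˣ) : ℤ_[p]) * (p : ℤ_[p]) ^ (ψ z).valuation := hzu
      _ = ((PadicInt.unitCoeff hz : ℤ_[p]ˣ) : ℤ_[p]) *
          ((((PadicInt.unitCoeff hz₀)⁻¹ : ℤ_[p]ˣ) : ℤ_[p]) *
            ((PadicInt.unitCoeff hz₀ : ℤ_[p]ˣ) : ℤ_[p])) *
          (p : ℤ_[p]) ^ (w.valuation + j) := by rw [hu, mul_one, hj]
      _ = ((PadicInt.unitCoeff hz : ℤ_[p]ˣ) : ℤ_[p]) *
          (((PadicInt.unitCoeff hz₀)⁻¹ : ℤ_[p]ˣ) : ℤ_[p]) * (p : ℤ_[p]) ^ j *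
          (((PadicInt.unitCoeff hz₀ : ℤ_[p]ˣ) : ℤ_[p]) * (p : ℤ_[p]) ^ w.valuation) := by
            rw [pow_add]; ring
      _ = _ := by rw [← hwu]
  have hsurj : ∀ t : ℤ_[p], ∃ z, ψ z = t * w := by
    intro t
    obtain ⟨s, hs⟩ := Ideal.mem_span_singleton.mp (PadicInt.appr_spec k t)
    refine ⟨z₀ ^ (PadicInt.appr t k) * φ (Multiplicative.ofAdd (s * w)), ?_⟩
    rw [hψmul, hψpow, hψφ, ← hw]
    have : t = (PadicInt.appr t k : ℤ_[p]) + (p : ℤ_[p]) ^ k * s := by
      rw [← hs]; ring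
    calc (PadicInt.appr t k : ℤ_[p]) * w + (p : ℤ_[p]) ^ k * (s * w)
        = ((PadicInt.appr t k : ℤ_[p]) + (p : ℤ_[p]) ^ k * s) * w := by ring
      _ = t * w := by rw [← this]
  choose θ hθ using hsurj
  let Θ : Multiplicative ℤ_[p] →* Z :=
    { toFun := fun t => θ (Multiplicative.toAdd t)
      map_one' := by
        apply hψinj
        rw [hθ, hψone, toAdd_one, zero_mul]
      map_mul' := by
        intro s t
        apply hψinj
        rw [hψmul, hθ, hθ, hθ, toAdd_mul, add_mul] }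
  have hΘ : ∀ t, ψ (Θ t) = Multiplicative.toAdd t * w := fun t => hθ _
  have hbij : Function.Bijective Θ := by
    constructor
    · intro s t hst
      have h1 : Multiplicative.toAdd s * w = Multiplicative.toAdd t * w := by
        rw [← hΘ, ← hΘ, hst]
      exact Multiplicative.toAdd.injective (mul_right_cancel₀ hz₀ h1)
    · intro z
      obtain ⟨t, ht⟩ := hdiv z
      refine ⟨Multiplicative.ofAdd t, hψinj ?_⟩
      rw [hΘ, ht]
      rfl
  have hcont : Continuous Θ := by
    apply continuous_of_mul Θ k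
    have h1 : ∀ s : ℤ_[p], Θ (Multiplicative.ofAdd ((p : ℤ_[p]) ^ k * s)) =
        φ (Multiplicative.ofAdd (s * w)) := by
      intro s
      apply hψinj
      rw [hΘ, hψφ]
      change (p : ℤ_[p]) ^ k * s * w = _
      ring
    simp_rw [h1]
    exact hφc.comp (continuous_ofAdd.comp (continuous_id.mul continuous_const))
  let E : Multiplicative ℤ_[p] ≃* Z := MulEquiv.ofBijective Θ hbij
  have hE : Continuous E := hcont
  have hE' : Continuous E.symm :=
    Continuous.continuous_symm_of_equiv_compact_to_t2 (f := E.toEquiv) hE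
  exact ⟨{ E.symm with continuous_toFun := hE', continuous_invFun := hE }⟩

end padic

section center

variable {G : Type*} [Group G]

/-- If the center of a torsion-free group has finite index the group is abelian. -/
lemma comm_of_finite (htf : ∀ g : G, IsOfFinOrder g → g = 1)
    (hfin : Finite (G ⧸ Subgroup.center G)) (a b : G) : a * b = b * a := by
  have : (Subgroup.center G).FiniteIndex := Subgroup.finiteIndex_of_finite_quotient
  have h1 : MonoidHom.transferCenterPow G (a * b * a⁻¹ * b⁻¹) = 1 := by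
    simp only [map_mul, map_inv]
    have hc : MonoidHom.transferCenterPow G a * MonoidHom.transferCenterPow G b =
        MonoidHom.transferCenterPow G b * MonoidHom.transferCenterPow G a :=
      Subtype.ext (Subgroup.mem_center_iff.mp (MonoidHom.transferCenterPow G b).2 _)
    rw [hc]
    group
  have h2 : (a * b * a⁻¹ * b⁻¹) ^ (Subgroup.center G).index = 1 := congrArg Subtype.val h1
  have h3 : a * b * a⁻¹ * b⁻¹ = 1 := by
    apply htf
    rw [isOfFinOrder_iff_pow_eq_one]
    exact ⟨_, Nat.pos_of_ne_zero Subgroup.FiniteIndex.index_ne_zero, h2⟩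
  have h4 : a * b * a⁻¹ = b := mul_inv_eq_one.mp h3
  exact mul_inv_eq_iff_eq_mul.mp h4

/-- The center is open and topologically isomorphic to `ℤ_p`. -/
lemma center_struct (p : ℕ) [Fact p.Prime] [tG : TopologicalSpace G]
    [IsTopologicalGroup G] [T2Space G] (htf : ∀ g : G, IsOfFinOrder g → g = 1)
    (φ : Multiplicative ℤ_[p] →* G) (hφc : Continuous φ) (hφi : Function.Injective φ)
    (hcent : φ.range ≤ Subgroup.center G)
    (k : ℕ) (hexp : ∀ g : G, g ^ (p ^ k) ∈ φ.range) :
    IsOpen (Subgroup.center G : Set G) ∧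
      Nonempty (Subgroup.center G ≃ₜ* Multiplicative ℤ_[p]) := by
  have hN : p ^ k ≠ 0 := pow_ne_zero _ (Fact.out : p.Prime).ne_zero
  constructor
  · have h1 := FinExp.eventually_mem htf φ hφc hφi hcent (p ^ k) hN hexp ⊤ _ inferInstance
      inferInstance le_rfl
    rw [nhds_induced, Filter.eventually_comap] at h1
    apply Subgroup.isOpen_of_mem_nhds (g := 1)
    filter_upwards [h1] with g hg
    exact hcent (hg ⟨g, Subgroup.mem_top g⟩ rfl)
  · let φ' : Multiplicative ℤ_[p] →* Subgroup.center G :=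
      φ.codRestrict (Subgroup.center G) fun x => hcent ⟨x, rfl⟩
    have hφ' : ∀ x, (φ' x : G) = φ x := fun x => rfl
    apply nonempty_equiv (fun a b => Subtype.ext (Subgroup.mem_center_iff.mp b.2 a)) ?_ φ'
      (hφc.subtype_mk _) ?_ k ?_
    · intro g hg
      apply Subtype.ext
      apply htf
      obtain ⟨m, hm, hm1⟩ := isOfFinOrder_iff_pow_eq_one.mp hg
      rw [isOfFinOrder_iff_pow_eq_one]
      exact ⟨m, hm, congrArg Subtype.val hm1⟩
    · intro x y hxy
      exact hφi (congrArg Subtype.val hxy)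
    · intro g
      obtain ⟨x, hx⟩ := hexp (g : G)
      exact ⟨x, Subtype.ext hx⟩

end center

end Pool.Agent.Lib.MP_7f190d_al.H49
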