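import Pool.Agent.Lib.MP_7f190d_al.Interfaces
import Pool.Agent.Lib.MP_7f190d_al.H1.G
import Pool.Agent.Lib.MP_7f190d_al.H49.Struct

/-!
# The topological group, with more information
-/

set_option autoImplicit false

namespace Pool.Agent.Lib.MP_7f190d_al.H49

open Topology

/-- From a central extension of a group of exponent `p ^ k` by an infinite cyclic group to a
topological group: the center, the minimality of the subgroups, generators. -/
theorem g_strong (p k : ℕ) (hp : p.Prime) (hp' : Fact p.Prime) (A : Type) [Group A] (d : A)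
    (hcen : ∀ g, g * d = d * g) (hinf : ∀ m : ℤ, d ^ m = 1 → m = 0)
    (htf : ∀ g : A, ∀ m : ℕ, 1 ≤ m → g ^ m = 1 → g = 1)
    (hexp : ∀ g : A, g ^ (p ^ k) ∈ Subgroup.zpowers d) (a b : A) (hab : a * b ≠ b * a)
    (hgen : Subgroup.closure ({a, b, d} : Set A) = ⊤) :
    ∃ (G : Type) (_ : Group G) (tG : TopologicalSpace G) (_ : IsTopologicalGroup G)
      (_ : T2Space G), LocallyCompactSpace G ∧ ¬ DiscreteTopology G ∧
      (∀ g : G, IsOfFinOrder g → g = 1) ∧
      IsOpen (Subgroup.center G : Set G) ∧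
      Nonempty (Subgroup.center G ≃ₜ* Multiplicative ℤ_[p]) ∧
      (∀ g : G, g ^ (p ^ k) ∈ Subgroup.center G) ∧
      (∃ x y : G, x * y ≠ y * x ∧ Subgroup.closure ({x, y} ∪ (Subgroup.center G : Set G)) = ⊤) ∧
      ∀ H : Subgroup G, ∀ τ : TopologicalSpace H,
        @IsTopologicalGroup H τ _ → @T2Space H τ →
        TopologicalSpace.induced (Subtype.val : H → G) tG ≤ τ →
        τ = TopologicalSpace.induced (Subtype.val : H → G) tG := by
  letI : TopologicalSpace A := ⊥
  haveI : DiscreteTopology A := ⟨rfl⟩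
  haveI : IsTopologicalGroup A := inferInstance
  let N := NSub p d
  have hNcen : ∀ g ∈ N, ∀ h : A × Multiplicative ℤ_[p], h * g = g * h := by
    intro g hg h
    obtain ⟨g1, g2⟩ := g
    obtain ⟨h1, h2⟩ := h
    obtain ⟨i, hi, -⟩ := (mem_NSub p (x := Multiplicative.toAdd g2)).mp hg
    ext1
    · change h1 * g1 = g1 * h1
      rw [← hi]
      have : Commute h1 d := hcen h1
      exact this.zpow_right i
    · exact mul_comm _ _
  haveI hNn : N.Normal := by
    constructor
    intro g hg h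
    rw [hNcen g hg h, mul_inv_cancel_right]
    exact hg
  have hinj : ∀ i j : ℤ, d ^ i = d ^ j → i = j := by
    intro i j hij
    have : d ^ (i - j) = 1 := by rw [zpow_sub, hij, mul_inv_cancel]
    have := hinf _ this
    omega
  haveI hNc : IsClosed (N : Set (A × Multiplicative ℤ_[p])) := by
    have h1 : (N : Set (A × Multiplicative ℤ_[p]))ᶜ =
        ⋃ a : A, ({a} : Set A) ×ˢ {x : Multiplicative ℤ_[p] | (a, x) ∉ N} := by
      ext ⟨a, x⟩
      simp
    rw [← isOpen_compl_iff, h1]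
    refine isOpen_iUnion fun a => (isOpen_discrete _).prod ?_
    have h2 : {x : Multiplicative ℤ_[p] | (a, x) ∉ N} = {x | (a, x) ∈ N}ᶜ := rfl
    rw [h2, isOpen_compl_iff]
    apply Set.Subsingleton.isClosed
    intro x hx y hy
    obtain ⟨i, hi, hi'⟩ := (mem_NSub p (x := Multiplicative.toAdd x)).mp hx
    obtain ⟨j, hj, hj'⟩ := (mem_NSub p (x := Multiplicative.toAdd y)).mp hy
    have : i = j := hinj _ _ (hi.trans hj.symm)
    subst this
    exact Multiplicative.toAdd.injective (hi'.trans hj'.symm)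
  let G := (A × Multiplicative ℤ_[p]) ⧸ N
  let mk : A × Multiplicative ℤ_[p] →* G := QuotientGroup.mk' N
  have hmk : Function.Surjective mk := QuotientGroup.mk'_surjective N
  have hmk1 : ∀ g, mk g = 1 ↔ g ∈ N := fun g => QuotientGroup.eq_one_iff g
  let φ : Multiplicative ℤ_[p] →* G := mk.comp (MonoidHom.inr A (Multiplicative ℤ_[p]))
  have hφ : ∀ x, φ x = mk (1, x) := fun x => rfl
  have hφc : Continuous φ := by
    change Continuous fun x => (QuotientGroup.mk ((1 : A), x) : G)
    exact continuous_quotient_mk'.comp (by fun_prop)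
  have hφi : Function.Injective φ := by
    rw [injective_iff_map_eq_one]
    intro x hx
    rw [hφ, hmk1] at hx
    obtain ⟨i, hi, hi'⟩ := (mem_NSub p (x := Multiplicative.toAdd x)).mp hx
    have : i = 0 := hinf i hi
    subst this
    apply Multiplicative.toAdd.injective
    rw [hi']
    simp
  have hcent : φ.range ≤ Subgroup.center G := by
    rintro _ ⟨x, rfl⟩
    rw [Subgroup.mem_center_iff]
    intro g
    obtain ⟨⟨g1, g2⟩, rfl⟩ := hmk g
    rw [hφ, ← map_mul, ← map_mul]
    congr 1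
    ext1
    · change g1 * 1 = 1 * g1
      rw [mul_one, one_mul]
    · exact mul_comm _ _
  -- a formula
  have hform : ∀ (s : ℤ) (x : ℤ_[p]), mk (d ^ s, Multiplicative.ofAdd x) =
      φ (Multiplicative.ofAdd (x + s)) := by
    intro s x
    rw [hφ]
    have h1 : mk ((d ^ s, Multiplicative.ofAdd x) * (1, Multiplicative.ofAdd (x + s))⁻¹) = 1 := by
      rw [hmk1]
      have h2 : ((d ^ s, Multiplicative.ofAdd x) * (1, Multiplicative.ofAdd (x + s))⁻¹ :
          A × Multiplicative ℤ_[p]) = (d ^ s, Multiplicative.ofAdd (-(s : ℤ_[p]))) := by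
        ext1
        · simp
        · change Multiplicative.ofAdd x * (Multiplicative.ofAdd (x + s))⁻¹ = _
          rw [← ofAdd_neg, ← ofAdd_add]
          congr 1
          ring
      rw [h2]
      exact (mem_NSub p).mpr ⟨s, rfl, rfl⟩
    rw [map_mul, map_inv, mul_inv_eq_one] at h1
    exact h1
  have hpk : p ^ k ≠ 0 := pow_ne_zero _ hp.ne_zero
  have hexpG : ∀ g : G, g ^ (p ^ k) ∈ φ.range := by
    intro g
    obtain ⟨⟨g1, g2⟩, rfl⟩ := hmk g
    obtain ⟨s, hs⟩ := Subgroup.mem_zpowers_iff.mp (hexp g1)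
    rw [← map_pow]
    have h1 : ((g1, g2) ^ (p ^ k) : A × Multiplicative ℤ_[p]) =
        (d ^ s, Multiplicative.ofAdd (Multiplicative.toAdd (g2 ^ (p ^ k)))) := by
      ext1
      · exact hs.symm
      · rfl
    rw [h1, hform]
    exact ⟨_, rfl⟩
  have htfG : ∀ g : G, IsOfFinOrder g → g = 1 := by
    intro g hg
    obtain ⟨m, hm, hm1⟩ := isOfFinOrder_iff_pow_eq_one.mp hg
    obtain ⟨⟨g1, g2⟩, rfl⟩ := hmk g
    rw [← map_pow, hmk1] at hm1
    obtain ⟨i, hi, hi'⟩ := (mem_NSub p (x := Multiplicative.toAdd (g2 ^ m))).mp hm1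
    obtain ⟨s, hs⟩ := Subgroup.mem_zpowers_iff.mp (hexp g1)
    set x : ℤ_[p] := Multiplicative.toAdd g2 with hx
    have hi2 : (m : ℤ_[p]) * x = -(i : ℤ_[p]) := by
      rw [← hi', toAdd_pow, nsmul_eq_mul]
    have hi1 : d ^ i = g1 ^ m := hi
    -- `s m = i p ^ k`
    have h1 : s * m = i * (p ^ k : ℕ) := by
      apply hinj
      rw [zpow_mul, hs, zpow_natCast, ← pow_mul, zpow_mul, hi1, zpow_natCast, ← pow_mul, mul_comm]
    have hm0 : (m : ℤ_[p]) ≠ 0 := by
      exact_mod_cast (Nat.pos_iff_ne_zero.mp hm)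
    have h2 : ((p ^ k : ℕ) : ℤ_[p]) * x = -(s : ℤ_[p]) := by
      have h3 : (m : ℤ_[p]) * (((p ^ k : ℕ) : ℤ_[p]) * x) = m * (-(s : ℤ_[p])) := by
        have h4 : ((s * m : ℤ) : ℤ_[p]) = ((i * (p ^ k : ℕ) : ℤ) : ℤ_[p]) := by rw [h1]
        push_cast at h4 ⊢
        linear_combination ((p : ℤ_[p]) ^ k) * hi2 + h4
      exact mul_left_cancel₀ hm0 h3
    have h3 : ((p : ℤ) ^ k) ∣ s := by
      rw [← PadicInt.pow_p_dvd_int_iff]
      refine ⟨-x, ?_⟩
      push_cast at h2
      linear_combination h2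
    obtain ⟨t, ht⟩ := h3
    have hcomm : Commute g1 (d ^ (-t)) := (show Commute g1 d from hcen g1).zpow_right _
    have h5 : g1 * d ^ (-t) = 1 := by
      apply htf _ (p ^ k) (Nat.one_le_iff_ne_zero.mpr hpk)
      rw [hcomm.mul_pow, ← hs, ← zpow_natCast (d ^ (-t)), ← zpow_mul, ← zpow_add, ht]
      have : (p : ℤ) ^ k * t + -t * ((p ^ k : ℕ) : ℤ) = 0 := by push_cast; ring
      rw [this, zpow_zero]
    have h6 : g1 = d ^ t := by
      rw [zpow_neg, mul_inv_eq_one] at h5
      exact h5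
    have h7 : x = -(t : ℤ_[p]) := by
      have hp0 : (((p ^ k : ℕ)) : ℤ_[p]) ≠ 0 := by exact_mod_cast hpk
      apply mul_left_cancel₀ hp0
      rw [h2, ht]
      push_cast
      ring
    rw [hmk1]
    have h8 : ((g1, g2) : A × Multiplicative ℤ_[p]) = (d ^ t, Multiplicative.ofAdd x) := by
      rw [h6]
      rfl
    rw [h8]
    exact (mem_NSub p).mpr ⟨t, rfl, h7⟩
  obtain ⟨hlc, hnd, hmin⟩ := FinExp.result p G htfG φ hφc hφi hcent (p ^ k) hpk hexpG
  obtain ⟨hop, hiso⟩ := center_struct p htfG φ hφc hφi hcent k hexpG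
  refine ⟨G, inferInstance, inferInstance, inferInstance, inferInstance, hlc, hnd, htfG, hop, hiso,
    fun g => hcent (hexpG g), ⟨mk (a, 1), mk (b, 1), ?_, ?_⟩, hmin⟩
  · intro h2
    rw [← map_mul, ← map_mul, ← mul_inv_eq_one, ← map_inv, ← map_mul, hmk1] at h2
    have h3 : (((a, 1) * (b, 1)) * ((b, 1) * (a, 1))⁻¹ : A × Multiplicative ℤ_[p]) =
        (a * b * (b * a)⁻¹, Multiplicative.ofAdd 0) := by
      ext1
      · rfl
      · simp
    rw [h3] at h2
    obtain ⟨i, hi, hi'⟩ := (mem_NSub p).mp h2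
    have h4 : (i : ℤ_[p]) = 0 := by
      rw [eq_neg_iff_add_eq_zero, zero_add] at hi'
      exact hi'
    have h5 : i = 0 := by exact_mod_cast h4
    subst h5
    rw [zpow_zero] at hi
    exact hab (mul_inv_eq_one.mp hi.symm)
  · -- generators
    rw [eq_top_iff]
    rintro g -
    set K : Subgroup G := Subgroup.closure
      ({mk (a, 1), mk (b, 1)} ∪ (Subgroup.center G : Set G)) with hK
    obtain ⟨⟨g1, g2⟩, rfl⟩ := hmk g
    have h1 : ((g1, g2) : A × Multiplicative ℤ_[p]) = (g1, 1) * (1, g2) := by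
      ext1
      · simp
      · simp
    rw [h1, map_mul]
    have hφK : ∀ x, φ x ∈ K := fun x =>
      Subgroup.subset_closure (Or.inr (hcent ⟨x, rfl⟩))
    refine K.mul_mem ?_ (hφK g2)
    -- the elements of `A`
    have h2 : Subgroup.closure ({a, b, d} : Set A) ≤
        K.comap (mk.comp (MonoidHom.inl A (Multiplicative ℤ_[p]))) := by
      rw [Subgroup.closure_le]
      rintro x (rfl | rfl | rfl)
      · exact Subgroup.subset_closure (Or.inl (Or.inl rfl))
      · exact Subgroup.subset_closure (Or.inl (Or.inr rfl))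
      · change mk (x, 1) ∈ K
        have h3 := hform 1 0
        rw [zpow_one] at h3
        have h4 : mk (x, (1 : Multiplicative ℤ_[p])) = φ (Multiplicative.ofAdd (0 + ((1 : ℤ) : ℤ_[p]))) := h3
        rw [h4]
        exact hφK _
    have h3 : g1 ∈ Subgroup.closure ({a, b, d} : Set A) := by
      rw [hgen]
      exact Subgroup.mem_top _
    exact h2 h3

/-- We may assume that the group is generated by two elements and the central one. -/
theorem aexists_gen {n : ℕ} (h : AExists n) : ∃ (A : Type) (_ : Group A) (d a b : A),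
    (∀ g, g * d = d * g) ∧ (∀ m : ℤ, d ^ m = 1 → m = 0) ∧
    (∀ g : A, ∀ m : ℕ, 1 ≤ m → g ^ m = 1 → g = 1) ∧
    (∀ g : A, g ^ n ∈ Subgroup.zpowers d) ∧ a * b ≠ b * a ∧
    Subgroup.closure ({a, b, d} : Set A) = ⊤ := by
  obtain ⟨A, _, d, hcen, hinf, htf, hexp, a, b, hab⟩ := h
  let B := Subgroup.closure ({a, b, d} : Set A)
  have ha : a ∈ B := Subgroup.subset_closure (by simp)
  have hb : b ∈ B := Subgroup.subset_closure (by simp)
  have hd : d ∈ B := Subgroup.subset_closure (by simp)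
  refine ⟨B, inferInstance, ⟨d, hd⟩, ⟨a, ha⟩, ⟨b, hb⟩, ?_, ?_, ?_, ?_, ?_, ?_⟩
  · intro g
    exact Subtype.ext (hcen g)
  · intro m hm
    apply hinf m
    have := congrArg Subtype.val hm
    simpa using this
  · intro g m hm hg
    apply Subtype.ext
    apply htf _ m hm
    have := congrArg Subtype.val hg
    simpa using this
  · intro g
    obtain ⟨i, hi⟩ := Subgroup.mem_zpowers_iff.mp (hexp (g : A))
    refine Subgroup.mem_zpowers_iff.mpr ⟨i, ?_⟩
    apply Subtype.ext
    simpa using hi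
  · intro h
    exact hab (congrArg Subtype.val h)
  · have h1 := Subgroup.closure_closure_coe_preimage (k := ({a, b, d} : Set A))
    rw [← h1]
    congr 1
    ext ⟨x, hx⟩
    simp

end Pool.Agent.Lib.MP_7f190d_al.H49
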