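import Pool.Agent.Lib.MP_7f190d_al.H24.Main
import Pool.Agent.Lib.MP_7f190d_al.H49.GStrong

/-!
# The central extensions for all large odd exponents
-/

set_option autoImplicit false

namespace Pool.Agent.Lib.MP_7f190d_al.H49

/-- for all large odd `n` there is a torsion-free non-abelian group with a central element `d` of
infinite order such that all `n`-th powers are powers of `d`. -/
theorem aexists_odd : ∃ n₀ : ℕ, ∀ n ≥ n₀, Odd n → AExists n := by
  have hS1 : S1Statement := s1
  have hS2 : S2Statement := s2_of hS1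
  have hS3 : S3Statement := s3_of hS1 GMet.I5 GMet.I6
  have hS4 : S4Statement := s4_of hS1 GMet.I6
  have hP : PStatement := p_module
  have hI1 : I1Statement := IA.I1
  have hI2 : I2Statement := IA.I2
  have hI3 : I3Statement := IA.I3
  have hI7 : I7Statement := IA.I7
  have hI5 : I5Statement := GMet.I5
  have hZ : ZStatement := H77.z_of hI1 hI2 hI7
  have hW1 : W1Statement := WA.w1
  have hW2 : W2Statement := w2 hI1 hI2 hW1
  have hW3 : W3Statement := w3 hI7
  have hW4 : W4Statement := WA.w4 hI5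
  have hW5 : W5Statement := w5 hI3
  have hW6 : W6Statement := w6 hW5 hP
  have hS5 : S5Statement := S5_of hS1 hS2
  have hS6 : S6Statement := S6_of hS1 hS2 hS5 hW6
  have hS7 : S7Statement := H34.s7 hS1 hS2 hS4 hS6 hW3
  have hS8 : S8Statement := H34.s8 hS1 hS2 hW2
  have hS9 : S9Statement := H34.s9 hS1 hS2 hS4 hS5
  have hS10 : S10Statement := H34.s10 hS1 hS3 hS4 hS7 hS8 hS9 hZ
  have hL : LStatement := l_of hP GMet.B2
  have hF : FStatement := f_module_of hI2 hZ
  obtain ⟨D, S, T, n₀, hD, h⟩ :=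
    step_main GMet.GG co hL (Kmod.K_of_CO co) H3.rt q1 q2 q3 hW4 hW5 hS10
  exact ⟨n₀, fun n hn hodd => t_module D S T n hD (h n hn hodd) hF⟩

/-- The groups for all odd primes. -/
theorem exists_strong (p : ℕ) (hp' : Fact p.Prime) (hp2 : p ≠ 2) :
    ∃ (G : Type) (_ : Group G) (tG : TopologicalSpace G) (_ : IsTopologicalGroup G)
      (_ : T2Space G) (k : ℕ), LocallyCompactSpace G ∧ ¬ DiscreteTopology G ∧
      (∀ g : G, IsOfFinOrder g → g = 1) ∧
      IsOpen (Subgroup.center G : Set G) ∧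
      Nonempty (Subgroup.center G ≃ₜ* Multiplicative ℤ_[p]) ∧
      (∀ g : G, g ^ (p ^ k) ∈ Subgroup.center G) ∧
      (∃ x y : G, x * y ≠ y * x ∧ Subgroup.closure ({x, y} ∪ (Subgroup.center G : Set G)) = ⊤) ∧
      ∀ H : Subgroup G, ∀ τ : TopologicalSpace H,
        @IsTopologicalGroup H τ _ → @T2Space H τ →
        TopologicalSpace.induced (Subtype.val : H → G) tG ≤ τ →
        τ = TopologicalSpace.induced (Subtype.val : H → G) tG := by
  obtain ⟨n₀, h⟩ := aexists_odd
  have hp : p.Prime := hp'.out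
  have h3 : n₀ ≤ p ^ n₀ := (Nat.lt_pow_self hp.one_lt).le
  have hodd : Odd (p ^ n₀) := (hp.odd_of_ne_two hp2).pow
  obtain ⟨A, _, d, a, b, h1, h2, h3, h4, h5, h6⟩ := aexists_gen (h _ h3 hodd)
  obtain ⟨G, i1, i2, i3, i4, h⟩ := g_strong p n₀ hp hp' A d h1 h2 h3 h4 a b h5 h6
  exact ⟨G, i1, i2, i3, i4, n₀, h⟩

end Pool.Agent.Lib.MP_7f190d_al.H49
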